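import Mathlib

/-!
# Nonnegative real part of `P_{α,β}` on the unit disc

For `β > 0` let `p_β(z) = ((1+z)/(1-z))^β` (principal power) on the unit disc, and for
`0 < α < 2/3`, `r = |z|`, put
`P_{α,β}(z) = (α r² + (1-α)(1-r²)) p_β(z) + (1-α)(1-r²) z p_β'(z)`.
We prove `Re P_{α,β} ≥ 0` on the whole disc whenever `0 < β ≤ α / (2 (1-α))`.
-/

namespace Pool.Agent.Results.MP_54ed65_an.NonnegRealPart

open Complex

/-- `p_β(z) = ((1+z)/(1-z))^β`, principal power. -/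
noncomputable def pfun (β : ℝ) (z : ℂ) : ℂ := ((1 + z) / (1 - z)) ^ (β : ℂ)

/-- `P_{α,β}(z) = (α|z|² + (1-α)(1-|z|²)) p_β(z) + (1-α)(1-|z|²) z p_β'(z)`. -/
noncomputable def Pfun (α β : ℝ) (z : ℂ) : ℂ :=
  ((α * ‖z‖ ^ 2 + (1 - α) * (1 - ‖z‖ ^ 2) : ℝ) : ℂ) * pfun β z
    + (((1 - α) * (1 - ‖z‖ ^ 2) : ℝ) : ℂ) * (z * deriv (pfun β) z)

theorem one_sub_ne {z : ℂ} (hz : ‖z‖ < 1) : (1 : ℂ) - z ≠ 0 := by
  intro h
  have : z = 1 := by linear_combination -h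
  rw [this] at hz
  simp at hz

theorem one_add_ne {z : ℂ} (hz : ‖z‖ < 1) : (1 : ℂ) + z ≠ 0 := by
  intro h
  have : z = -1 := by linear_combination h
  rw [this] at hz
  simp at hz

theorem re_pos {z : ℂ} (hz : ‖z‖ < 1) : 0 < ((1 + z) / (1 - z)).re := by
  have h1 := one_sub_ne hz
  have hn : 0 < normSq (1 - z) := normSq_pos.mpr h1
  rw [div_re]
  have h2 : normSq z < 1 := by
    rw [normSq_eq_norm_sq]
    nlinarith [norm_nonneg z]
  rw [← add_div]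
  apply div_pos _ hn
  rw [normSq_apply] at h2
  simp only [add_re, one_re, sub_re, add_im, one_im, sub_im]
  nlinarith

theorem hasDerivAt_p (β : ℝ) {z : ℂ} (hz : ‖z‖ < 1) :
    HasDerivAt (pfun β)
      ((β : ℂ) * ((1 + z) / (1 - z)) ^ ((β : ℂ) - 1) * (2 / (1 - z) ^ 2)) z := by
  have h1 := one_sub_ne hz
  have hw : HasDerivAt (fun z : ℂ => (1 + z) / (1 - z)) (2 / (1 - z) ^ 2) z := by
    have ha : HasDerivAt (fun z : ℂ => 1 + z) 1 z := (hasDerivAt_id z).const_add 1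
    have hb : HasDerivAt (fun z : ℂ => 1 - z) (-1) z := by
      simpa using (hasDerivAt_id z).const_sub 1
    have := ha.div hb h1
    have e : (1 * (1 - z) - (1 + z) * -1) / (1 - z) ^ 2 = 2 / (1 - z) ^ 2 := by ring
    rw [e] at this
    exact this
  have hs : (1 + z) / (1 - z) ∈ slitPlane := Or.inl (re_pos hz)
  exact hw.cpow_const hs

/-- the trigonometric core -/
theorem core {β θ ρ : ℝ} (hβ : 0 < β) (hβ1 : β < 1) (hθ : |θ| < Real.pi / 2) (hρ : 0 < ρ) :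
    0 ≤ (ρ ^ 2 + 1) * (Real.cos (β * θ) - Real.sin (β * θ) * Real.sin θ * Real.cos θ)
      + (ρ ^ 2 - 1) * (Real.cos (β * θ) * Real.cos θ ^ 2) := by
  have hpi := Real.pi_pos
  rw [abs_lt] at hθ
  have hc : 0 < Real.cos θ := Real.cos_pos_of_mem_Ioo ⟨by linarith, by linarith⟩
  have hbt : |β * θ| < Real.pi / 2 := by
    rw [abs_mul, abs_of_pos hβ]
    have : |θ| < Real.pi / 2 := abs_lt.mpr ⟨by linarith, by linarith⟩
    nlinarith [abs_nonneg θ]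
  rw [abs_lt] at hbt
  have hC : 0 < Real.cos (β * θ) := Real.cos_pos_of_mem_Ioo ⟨by linarith, by linarith⟩
  have hkey : 0 ≤ Real.sin θ * Real.sin ((1 - β) * θ) := by
    rcases le_total 0 θ with h | h
    · have h1 : 0 ≤ Real.sin θ := Real.sin_nonneg_of_nonneg_of_le_pi h (by linarith)
      have h2 : 0 ≤ Real.sin ((1 - β) * θ) :=
        Real.sin_nonneg_of_nonneg_of_le_pi (mul_nonneg (by linarith) h) (by nlinarith)
      exact mul_nonneg h1 h2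
    · have h1 : Real.sin θ ≤ 0 := Real.sin_nonpos_of_nonpos_of_neg_pi_le h (by linarith)
      have h2 : Real.sin ((1 - β) * θ) ≤ 0 :=
        Real.sin_nonpos_of_nonpos_of_neg_pi_le
          (mul_nonpos_of_nonneg_of_nonpos (by linarith) h) (by nlinarith)
      exact mul_nonneg_of_nonpos_of_nonpos h1 h2
  have hexp : Real.sin ((1 - β) * θ)
      = Real.sin θ * Real.cos (β * θ) - Real.cos θ * Real.sin (β * θ) := by
    rw [← Real.sin_sub]; congr 1; ring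
  rw [hexp] at hkey
  have hB : 0 ≤ Real.cos (β * θ) * Real.cos θ ^ 2 := by positivity
  have hsc : Real.sin θ ^ 2 = 1 - Real.cos θ ^ 2 := by
    rw [← Real.sin_sq_add_cos_sq θ]; ring
  have hAB : Real.cos (β * θ) * Real.cos θ ^ 2
      ≤ Real.cos (β * θ) - Real.sin (β * θ) * Real.sin θ * Real.cos θ := by
    have : Real.sin θ * (Real.sin θ * Real.cos (β * θ) - Real.cos θ * Real.sin (β * θ))
        = Real.cos (β * θ) * Real.sin θ ^ 2 - Real.sin (β * θ) * Real.sin θ * Real.cos θ := by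
      ring
    rw [this, hsc] at hkey
    linarith
  have hρ2 : 0 < ρ ^ 2 := by positivity
  nlinarith [mul_le_mul_of_nonneg_left hAB (by positivity : (0 : ℝ) ≤ ρ ^ 2 + 1)]

theorem final {α β c s C S ρ : ℝ} (hα : 0 < α) (hα' : α < 2 / 3) (hβ : 0 < β) (hβ1 : β < 1)
    (hαβ : 0 ≤ α - 2 * (1 - α) * β) (hc : 0 < c) (hC : 0 < C) (hcs : c ^ 2 + s ^ 2 = 1)
    (hρ : 0 < ρ)
    (hcore : 0 ≤ (ρ ^ 2 + 1) * (C - S * s * c) + (ρ ^ 2 - 1) * (C * c ^ 2)) :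
    0 ≤ (α * (ρ ^ 2 + 1 - 2 * ρ * c) + (1 - α) * (4 * ρ * c)) * C
        + 2 * (1 - α) * β * c * ((ρ ^ 2 - 1) * c * C - (ρ ^ 2 + 1) * s * S) := by
  have hcle : c ≤ 1 := by nlinarith [sq_nonneg s]
  have hq : 0 ≤ ρ ^ 2 + 1 - 2 * ρ * c := by nlinarith [sq_nonneg (ρ - 1)]
  have h1 : 0 ≤ (α - 2 * (1 - α) * β) * ((ρ ^ 2 + 1 - 2 * ρ * c) * C) :=
    mul_nonneg hαβ (mul_nonneg hq hC.le)
  have h2 : 0 ≤ (1 - α) * ((4 - 4 * β) * (ρ * c * C)) := by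
    apply mul_nonneg (by linarith) (mul_nonneg (by linarith) (by positivity))
  have h3 : 0 ≤ (1 - α) * (2 * β) * ((ρ ^ 2 + 1) * (C - S * s * c) + (ρ ^ 2 - 1) * (C * c ^ 2)) :=
    mul_nonneg (mul_nonneg (by linarith) (by linarith)) hcore
  have e : (α * (ρ ^ 2 + 1 - 2 * ρ * c) + (1 - α) * (4 * ρ * c)) * C
        + 2 * (1 - α) * β * c * ((ρ ^ 2 - 1) * c * C - (ρ ^ 2 + 1) * s * S)
      = (α - 2 * (1 - α) * β) * ((ρ ^ 2 + 1 - 2 * ρ * c) * C)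
        + (1 - α) * ((4 - 4 * β) * (ρ * c * C))
        + (1 - α) * (2 * β) * ((ρ ^ 2 + 1) * (C - S * s * c) + (ρ ^ 2 - 1) * (C * c ^ 2)) := by
    ring
  rw [e]
  linarith

/-- **Answer to Q1 (affirmative).** For all `α ∈ (0, 2/3)` and `0 < β ≤ α/(2(1-α))`, one has
`Re P_{α,β}(z) ≥ 0` for every `z` in the open unit disc. -/
theorem result :
    ∀ α β : ℝ, 0 < α → α < 2 / 3 → 0 < β → 0 ≤ α - 2 * (1 - α) * β →
      ∀ z : ℂ, ‖z‖ < 1 → 0 ≤ (Pfun α β z).re := by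
  intro α β hα hα' hβ hαβ z hz
  have h1 := one_sub_ne hz
  have h1' := one_add_ne hz
  have hβ1 : β < 1 := by nlinarith
  set w : ℂ := (1 + z) / (1 - z) with hw
  have hwre : 0 < w.re := re_pos hz
  have hw0 : w ≠ 0 := by
    intro h; rw [h] at hwre; simp at hwre
  have hw1 : w + 1 ≠ 0 := by
    intro h
    have : (w + 1).re = 0 := by rw [h]; simp
    simp at this
    linarith
  -- derivative
  have hder : z * deriv (pfun β) z = (β : ℂ) / 2 * (w - 1 / w) * w ^ (β : ℂ) := by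
    rw [(hasDerivAt_p β hz).deriv, ← hw, cpow_sub _ _ hw0, cpow_one]
    have : w - 1 / w = 4 * z / ((1 - z) * (1 + z)) := by
      rw [hw]; field_simp; ring
    rw [this]
    have h3 : w ^ (β : ℂ) / w = w ^ (β : ℂ) * ((1 - z) / (1 + z)) := by
      rw [hw]; field_simp
    rw [h3]
    field_simp
    ring
  -- norms
  have hzw : z = (w - 1) / (w + 1) := by
    rw [eq_div_iff hw1, hw]; field_simp; ring
  have hN : 0 < ‖w + 1‖ := norm_pos_iff.mpr hw1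
  have hr : ‖z‖ ^ 2 = ‖w - 1‖ ^ 2 / ‖w + 1‖ ^ 2 := by
    conv_lhs => rw [hzw]
    rw [norm_div, div_pow]
  have hsq1 : ‖w - 1‖ ^ 2 = w.re ^ 2 + w.im ^ 2 - 2 * w.re + 1 := by
    rw [← normSq_eq_norm_sq, normSq_apply]; simp; ring
  have hsq2 : ‖w + 1‖ ^ 2 = w.re ^ 2 + w.im ^ 2 + 2 * w.re + 1 := by
    rw [← normSq_eq_norm_sq, normSq_apply]; simp; ring
  have hr' : 1 - ‖z‖ ^ 2 = 4 * w.re / ‖w + 1‖ ^ 2 := by
    rw [hr, eq_div_iff (by positivity), sub_mul, div_mul_cancel₀ _ (by positivity), hsq1, hsq2]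
    ring
  -- polar form
  set ρ : ℝ := ‖w‖ with hρ
  have hρ0 : 0 < ρ := norm_pos_iff.mpr hw0
  set θ : ℝ := arg w with hθ
  have hθb : |θ| < Real.pi / 2 := by
    rw [hθ]; exact abs_arg_lt_pi_div_two_iff.mpr (Or.inl hwre)
  obtain ⟨c, hc⟩ : ∃ c : ℝ, c = Real.cos θ := ⟨_, rfl⟩
  obtain ⟨s, hs⟩ : ∃ s : ℝ, s = Real.sin θ := ⟨_, rfl⟩
  obtain ⟨C, hC⟩ : ∃ C : ℝ, C = Real.cos (β * θ) := ⟨_, rfl⟩
  obtain ⟨S, hS⟩ : ∃ S : ℝ, S = Real.sin (β * θ) := ⟨_, rfl⟩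
  have hcs : c ^ 2 + s ^ 2 = 1 := by rw [hc, hs]; exact Real.cos_sq_add_sin_sq θ
  have hwre' : w.re = ρ * c := by
    rw [hρ, hc, hθ, cos_arg hw0]; field_simp
  have hwim' : w.im = ρ * s := by
    rw [hρ, hs, hθ, sin_arg]; field_simp
  have hwpow : w ^ (β : ℂ) = ((ρ ^ β : ℝ) : ℂ) * ((C : ℂ) + (S : ℂ) * I) := by
    rw [cpow_def_of_ne_zero hw0, Complex.log, ← hρ, ← hθ, add_mul, exp_add,
      Real.rpow_def_of_pos hρ0, hC, hS]
    push_cast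
    congr 1
    rw [show (θ : ℂ) * I * β = ((β : ℂ) * θ) * I by ring, exp_mul_I]
  have hwp : w = (ρ : ℂ) * ((c : ℂ) + (s : ℂ) * I) := by
    apply Complex.ext
    · simp [hwre']
    · simp [hwim']
  have hinv : (1 / w : ℂ) = ((1 / ρ : ℝ) : ℂ) * ((c : ℂ) - (s : ℂ) * I) := by
    rw [div_eq_iff hw0]
    conv_rhs => rw [hwp]
    have hρc : (ρ : ℂ) ≠ 0 := by exact_mod_cast hρ0.ne'
    have hcs' : (c : ℂ) ^ 2 + (s : ℂ) ^ 2 = 1 := by exact_mod_cast hcs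
    push_cast
    field_simp
    linear_combination (-(1 : ℂ)) * hcs' + (s : ℂ) ^ 2 * I_sq
  have hρβ : 0 < ρ ^ β := Real.rpow_pos_of_pos hρ0 β
  have hP : Pfun α β z = ((1 / ‖w + 1‖ ^ 2 * ρ ^ β : ℝ) : ℂ) *
      ((((α * (ρ ^ 2 + 1 - 2 * ρ * c) + (1 - α) * (4 * ρ * c) : ℝ) : ℂ)
        + (((1 - α) * (2 * ρ * c * β) : ℝ) : ℂ) *
          ((((ρ - 1 / ρ) * c : ℝ) : ℂ) + (((ρ + 1 / ρ) * s : ℝ) : ℂ) * I))
        * ((C : ℂ) + (S : ℂ) * I)) := by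
    have e1 : ‖z‖ ^ 2 = (ρ ^ 2 + 1 - 2 * ρ * c) / ‖w + 1‖ ^ 2 := by
      rw [hr, hsq1, hwre', hwim']
      congr 1
      linear_combination ρ ^ 2 * hcs
    rw [Pfun, hder, hr', e1, hwre']
    have e2 : pfun β z = w ^ (β : ℂ) := rfl
    rw [e2, hwpow, hinv]
    have hNc : ((‖w + 1‖ : ℝ) : ℂ) ≠ 0 := by exact_mod_cast hN.ne'
    have hρc : (ρ : ℂ) ≠ 0 := by exact_mod_cast hρ0.ne'
    revert hNc
    generalize ‖w + 1‖ = M
    intro hNc
    rw [show w - ((1 / ρ : ℝ) : ℂ) * ((c : ℂ) - (s : ℂ) * I)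
      = (ρ : ℂ) * ((c : ℂ) + (s : ℂ) * I) - ((1 / ρ : ℝ) : ℂ) * ((c : ℂ) - (s : ℂ) * I) by
        rw [← hwp]]
    push_cast
    field_simp
    ring
  rw [hP, re_ofReal_mul]
  apply mul_nonneg (by positivity)
  have hc' := core (θ := θ) hβ hβ1 hθb hρ0
  rw [← hc, ← hs, ← hC, ← hS] at hc'
  have hre : ((((α * (ρ ^ 2 + 1 - 2 * ρ * c) + (1 - α) * (4 * ρ * c) : ℝ) : ℂ)
        + (((1 - α) * (2 * ρ * c * β) : ℝ) : ℂ) *
          ((((ρ - 1 / ρ) * c : ℝ) : ℂ) + (((ρ + 1 / ρ) * s : ℝ) : ℂ) * I))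
        * ((C : ℂ) + (S : ℂ) * I)).re
      = (α * (ρ ^ 2 + 1 - 2 * ρ * c) + (1 - α) * (4 * ρ * c)) * C
        + 2 * (1 - α) * β * c * ((ρ ^ 2 - 1) * c * C - (ρ ^ 2 + 1) * s * S) := by
    simp only [mul_re, add_re, add_im, mul_im, ofReal_re, ofReal_im, I_re, I_im]
    field_simp
    ring
  rw [hre]
  have hcpos : 0 < c := by
    have : 0 < ρ * c := by rw [← hwre']; exact hwre
    exact (pos_iff_pos_of_mul_pos this).mp hρ0
  have hCpos : 0 < C := by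
    rw [hC]
    have hpi := Real.pi_pos
    have hbt : |β * θ| < Real.pi / 2 := by
      rw [abs_mul, abs_of_pos hβ]
      nlinarith [abs_nonneg θ]
    rw [abs_lt] at hbt
    exact Real.cos_pos_of_mem_Ioo ⟨by linarith, by linarith⟩
  exact final hα hα' hβ hβ1 hαβ hcpos hCpos hcs hρ0 hc'

end Pool.Agent.Results.MP_54ed65_an.NonnegRealPart
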